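import Pool.Agent.Helper17.CT.Defs

set_option autoImplicit false

/-!
CT-15 `exists_data`. The theorem takes the results of CT-4, CT-5, CT-7, CT-8, CT-14 for the outer
pole of the given embedding as hypotheses (`exists_data_of`).
-/

namespace Pool.Agent.Helper17.CT

section data
variable {I : Type} {k : ℕ} {F : Inner I k} {D : Type} {M : CMap D} (E : Emb F M)

private lemma outer_s_of_out {d : E.HSet} (h : ∀ x, E.ι x ≠ d.1) :
    (E.outer.s d).1 = M.s d.1 := by
  simp [Emb.outer, h]

private lemma outer_s_of_in {d : E.HSet} (h : ¬ ∀ x, E.ι x ≠ d.1) : E.outer.s d = d := by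
  simp only [Emb.outer]
  rw [dif_neg h]

/-- the restriction of a proper colouring to the outer pole is a colouring of the outer pole -/
private lemma col_outer {γ : D → Fin 3} (hT : M.Tri γ) : E.outer.Col (fun d => γ d.1) := by
  refine ⟨fun d => hT.acl d.1, fun d hd => ?_⟩
  by_cases h : ∀ x, E.ι x ≠ d.1
  · rw [outer_s_of_out E h]
    exact hT.prop d.1
  · exact absurd (outer_s_of_in E h) hd

/-- CT-15 with the results of the other modules as hypotheses. -/
theorem exists_data_of [Finite D] (γ : D → Fin 3) (hT : M.Tri γ)
    (exists_spec : ∀ O : E.HSet → Bool, E.outer.Sys O → ∃ b ε, E.outer.Spec O b ε)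
    (parity_law : ∀ (b : (E.HSet → Bool) → Fin k → Fin k) (ε : (E.HSet → Bool) → Fin k → Bool)
      (_ : ∀ O, E.outer.Sys O → E.outer.Spec O (b O) (ε O)) (κ : Fin k → Fin 3) (c c' : Fin 3),
      Nat.card {O : E.HSet → Bool // E.outer.Sys O ∧ Compat (b O) (ε O) κ c} ≡
        Nat.card {O : E.HSet → Bool // E.outer.Sys O ∧ Compat (b O) (ε O) κ c'} [MOD 2])
    (sys_of_ham : ∀ U : D → Bool, M.IsHam U → E.outer.Sys (fun d => U d.1))
    (hamF_of_ham : ∀ (U : D → Bool) (_ : M.IsHam U) (b : Fin k → Fin k)
      (ε : Fin k → Bool) (_ : E.outer.Spec (fun d => U d.1) b ε), HamF F (fun x => U (E.ι x)) b)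
    (glue_inner : ∀ (t : I → Bool) (O : E.HSet → Bool) (x : I), E.glue t O (E.ι x) = t x)
    (glue_outer : ∀ (t : I → Bool) (O : E.HSet → Bool)
      (_ : ∀ j, t (F.q j) = O (E.outer.port j)) (d : E.HSet), E.glue t O d.1 = O d)
    (glue_ham : ∀ (t : I → Bool) (O : E.HSet → Bool) (b : Fin k → Fin k) (ε : Fin k → Bool)
      (_ : E.outer.Sys O) (_ : E.outer.Spec O b ε) (_ : HamF F t b), M.IsHam (E.glue t O))
    (nc_lemma : ∀ (O : E.HSet → Bool) (_ : E.outer.Sys O) (b : Fin k → Fin k)
      (ε : Fin k → Bool) (_ : E.outer.Spec O b ε) (i j l m : Fin k) (_ : i < j) (_ : j < l)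
      (_ : l < m) (_ : b i = l) (_ : b j = m), False) :
    Nonempty (Data F) := by
  classical
  have hH : Finite E.HSet := inferInstance
  have hex : ∀ O : E.HSet → Bool, ∃ (b : Fin k → Fin k) (ε : Fin k → Bool),
      E.outer.Sys O → E.outer.Spec O b ε := by
    intro O
    by_cases h : E.outer.Sys O
    · obtain ⟨b, ε, hb⟩ := exists_spec O h
      exact ⟨b, ε, fun _ => hb⟩
    · exact ⟨id, fun _ => true, fun h' => absurd h' h⟩
  choose b ε hb using hex
  -- the states of the three Hamilton cycles
  let T : Fin 3 → {O : E.HSet → Bool // E.outer.Sys O} := fun i =>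
    ⟨fun d => decide (γ d.1 ≠ i), sys_of_ham _ (hT.ham i)⟩
  have hport : ∀ j, (E.outer.port j).1 = E.ι (F.q j) := fun j => rfl
  refine ⟨{
    Ω := {O : E.HSet → Bool // E.outer.Sys O}
    fin := inferInstance
    b := fun O => b O.1
    ε := fun O => ε O.1
    inv := fun O => (hb O.1 O.2).inv
    eps := fun O => (hb O.1 O.2).eps
    nc := fun O i j l m h1 h2 h3 h4 h5 =>
      nc_lemma O.1 O.2 (b O.1) (ε O.1) (hb O.1 O.2) i j l m h1 h2 h3 h4 h5
    par := ?_
    γ := fun x => γ (E.ι x)
    γs := fun x => by rw [E.hs]; exact hT.prop _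
    γe := fun x hx => by rw [E.he x hx]; exact hT.acl _
    T := T
    comp := ?_
    ham := ?_
    all := ?_
    cst := ?_ }⟩
  · intro κ c c'
    have h := parity_law b ε hb κ c c'
    have e : ∀ c : Fin 3, Nat.card {O : {O : E.HSet → Bool // E.outer.Sys O} //
        Compat (b O.1) (ε O.1) κ c} =
        Nat.card {O : E.HSet → Bool // E.outer.Sys O ∧ Compat (b O) (ε O) κ c} := fun c =>
      Nat.card_congr (Equiv.subtypeSubtypeEquivSubtypeInter (fun O => E.outer.Sys O)
        (fun O => Compat (b O) (ε O) κ c))
    rw [e c, e c']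
    exact h
  · intro i j
    have hs := hb (T i).1 (T i).2
    have huse := hs.use j
    have hO : ∀ j, (T i).1 (E.outer.port j) = true ↔ γ (E.ι (F.q j)) ≠ i := by
      intro j
      simp [T, hport]
    refine ⟨by rw [← hO j]; exact huse, fun hne => ?_⟩
    have halt := (hs.alt (fun j => γ (E.ι (F.q j))) i (fun j => (hO j).symm)).1
      ⟨fun d => γ d.1, col_outer E hT, fun j => rfl, fun d => by simp [T]⟩
    exact halt j (huse.2 hne)
  · intro i
    exact hamF_of_ham (fun d => decide (γ d ≠ i)) (hT.ham i) _ _ (hb (T i).1 (T i).2)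
  · intro O t ht
    have hg := glue_ham t O.1 (b O.1) (ε O.1) O.2 (hb O.1 O.2) ht
    obtain ⟨i, hi⟩ := hT.all _ hg
    have huse : ∀ j, t (F.q j) = O.1 (E.outer.port j) := by
      intro j
      have h1 := ht.use j
      have h2 := (hb O.1 O.2).use j
      rw [Bool.eq_iff_iff, h1, h2]
    refine ⟨i, ?_, ?_⟩
    · apply Subtype.ext
      funext d
      rw [← glue_outer t O.1 huse d, hi]
    · funext x
      rw [← glue_inner t O.1 x, hi]
  · by_cases hex : ∃ j j', γ (E.ι (F.q j)) ≠ γ (E.ι (F.q j'))
    · exact Or.inl hex
    · right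
      push Not at hex
      obtain ⟨c, hc⟩ : ∃ c : Fin 3, ∀ j, γ (E.ι (F.q j)) = c := by
        rcases Nat.eq_zero_or_pos k with hk | hk
        · subst hk
          exact ⟨0, fun j => j.elim0⟩
        · exact ⟨γ (E.ι (F.q ⟨0, hk⟩)), fun j => hex _ _⟩
      -- every dart of the outer pole has colour c
      have hall : ∀ d : E.HSet, γ d.1 = c := by
        intro d
        by_contra hd
        have h1 : (T c).1 d = true := by simp [T, hd]
        obtain ⟨j, hj, -⟩ := (T c).2.loopless d h1
        have h2 : γ (E.ι (F.q j)) ≠ c := by simpa [T, hport] using hj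
        exact h2 (hc j)
      have hfix : ∀ d : E.HSet, E.outer.s d = d := by
        intro d
        by_contra hd
        exact (col_outer E hT).prop d hd ((hall _).trans (hall d).symm)
      have hlab : ∀ d : E.HSet, ∃ j, E.outer.port j = d := fun d => (E.outer.piff d).1 (hfix d)
      choose lab hlab using hlab
      have hlabp : ∀ j, lab (E.outer.port j) = j := fun j => E.outer.pinj (hlab _)
      let m : Fin k → Fin k := fun j => lab (E.outer.a (E.outer.port j))
      have hm : ∀ j, E.outer.port (m j) = E.outer.a (E.outer.port j) := fun j => hlab _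
      have hmm : ∀ j, m (m j) = j := by
        intro j
        apply E.outer.pinj
        rw [hm, hm, E.outer.a2]
      have hmj : ∀ j, m j ≠ j := by
        intro j hj
        have h1 := hm j
        rw [hj] at h1
        exact E.outer.a1 _ h1.symm
      have hcomp : ∀ (O : E.HSet → Bool) (j : Fin k) (y : E.HSet),
          Conn E.outer.s E.outer.a O (E.outer.port j) y →
            y = E.outer.port j ∨ y = E.outer.port (m j) := by
        intro O j y hy
        induction hy with
        | refl => exact Or.inl rfl
        | tail _ hst ih =>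
          obtain ⟨-, -, h4⟩ := hst
          rcases h4 with h4 | h4 | h4
          · rcases ih with ih | ih
            · right
              rw [h4, ih, hm]
            · left
              rw [h4, ih, hm, E.outer.a2]
          · rw [h4, hfix]
            exact ih
          · rw [h4, hfix, hfix]
            exact ih
      have hbO : ∀ (O : E.HSet → Bool) (_ : E.outer.Sys O) (j : Fin k),
          b O j = j ∨ b O j = m j := by
        intro O hO j
        by_cases hj : b O j = j
        · exact Or.inl hj
        · rcases hcomp O j _ ((hb O hO).con j (((hb O hO).use j).2 hj)) with h4 | h4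
          · exact Or.inl (E.outer.pinj h4)
          · exact Or.inr (E.outer.pinj h4)
      refine ⟨m, hmm, hmj, fun O j => hbO O.1 O.2 j, fun b' hb1 hb2 => ?_⟩
      have hkey : ∀ j, b' (m j) ≠ m j ↔ b' j ≠ j := by
        intro j
        constructor
        · intro h h'
          rcases hb2 (m j) with h1 | h1
          · exact h h1
          · rw [hmm] at h1
            have h2 := hb1 (m j)
            rw [h1, h'] at h2
            exact hmj j h2.symm
        · intro h h'
          rcases hb2 j with h1 | h1
          · exact h h1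
          · have h2 := hb1 j
            rw [h1, h'] at h2
            exact hmj j h2
      let O : E.HSet → Bool := fun d => decide (b' (lab d) ≠ lab d)
      have hlaba : ∀ d, lab (E.outer.a d) = m (lab d) := by
        intro d
        apply E.outer.pinj
        rw [hlab, hm, hlab]
      have hO : E.outer.Sys O := by
        refine ⟨⟨fun d => ?_, fun d hd => absurd (hfix d) hd⟩, fun x hx => ?_⟩
        · change decide (b' (lab (E.outer.a d)) ≠ lab (E.outer.a d)) =
            decide (b' (lab d) ≠ lab d)
          rw [hlaba]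
          exact decide_eq_decide.2 (hkey _)
        · exact ⟨lab x, by rw [hlab]; exact hx, by rw [hlab]; exact Relation.ReflTransGen.refl⟩
      have hOp : ∀ j, O (E.outer.port j) = true ↔ b' j ≠ j := by
        intro j
        change decide (b' (lab (E.outer.port j)) ≠ lab (E.outer.port j)) = true ↔ _
        rw [hlabp]
        simp
      refine ⟨⟨O, hO⟩, ?_⟩
      have hs := hb O hO
      funext j
      by_cases hj : b' j = j
      · rw [hj]
        by_contra hne
        exact (hOp j).1 ((hs.use j).2 hne) hj
      · have h1 : O (E.outer.port j) = true := (hOp j).2 hj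
        rw [(hb2 j).resolve_left hj]
        exact (hbO O hO j).resolve_left ((hs.use j).1 h1)

end data

end Pool.Agent.Helper17.CT
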